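import Pool.Agent.H97.SCG2.NFDb

/-!
Project SCG2: module NFD (normal form when `b`, `d` commute only modulo scalars).
-/

namespace Pool.Agent.H97.SCG2

open Matrix Pool.SCG

theorem nfd_thm (hPAR : PARStmt) : NFDStmt := by
  intro F _ _ hF a b c d e hS hbd
  obtain ⟨p, -, -, -, h2, h3, -⟩ := hPAR F hF
  have hsa : a.s = true := by
    by_contra h
    exact hbd (hS.bdx (Or.inl (by simpa using h)))
  have hsb : b.s = true := by
    by_contra h
    exact hbd (hS.bdx (Or.inr (Or.inl (by simpa using h))))
  have hsd : d.s = true := by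
    by_contra h
    exact hbd (hS.bdx (Or.inr (Or.inr (Or.inl (by simpa using h)))))
  have hse : e.s = true := by
    by_contra h
    exact hbd (hS.bdx (Or.inr (Or.inr (Or.inr (by simpa using h)))))
  have ha : Is a true (a.m : M3 F) := ⟨hsa, rfl⟩
  have hb : Is b true (b.m : M3 F) := ⟨hsb, rfl⟩
  have hd : Is d true (d.m : M3 F) := ⟨hsd, rfl⟩
  have he : Is e true (e.m : M3 F) := ⟨hse, rfl⟩
  have tA := (outer_sq_iff ha).1 hS.ia.2
  have tB := (outer_sq_iff hb).1 hS.ib.2
  have tD := (outer_sq_iff hd).1 hS.id.2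
  have tE := (outer_sq_iff he).1 hS.ie.2
  have r1 := (comm_outer_iff ha he tA tE).1 hS.ae
  have r2 := (comm_outer_iff ha hd tA tD).1 hS.ad
  have r3 := (comm_outer_iff hb he tB tE).1 hS.be
  obtain ⟨z, ⟨ζ, hζ, hz⟩, hzbd⟩ := hS.bd
  have hζ1 : ζ ≠ 1 := by
    rintro rfl
    rw [dg_one] at hz
    have : z = 1 := hz.ext is_one
    apply hbd
    rw [hzbd, this, one_mul]
  have r4 : (d.m : M3 F) * adjugate (b.m : M3 F) * (d.m : M3 F) = ζ • (b.m : M3 F) := by
    have e1 : Is (b * d) false ((adjugate (b.m : M3 F)).transpose * (d.m : M3 F)) := by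
      simpa using hb.mul_outer hd
    have e2 : Is (d * b) false ((adjugate (d.m : M3 F)).transpose * (b.m : M3 F)) := by
      simpa using hd.mul_outer hb
    have e3 := hz.mul_inner e2
    rw [← hzbd] at e3
    have e4 := (e1.uniq e3).2
    rw [adjugate_transpose, tB, adjugate_transpose, tD, dg_smul, Matrix.smul_mul, one_mul] at e4
    rw [mul_assoc, e4, Matrix.mul_smul, ← mul_assoc, mul_adj_self hd.det, one_mul]
  obtain ⟨P, s, hs, pA, pB, pD, pE⟩ := bch h3 _ _ _ _ ζ hζ hζ1 tA tB tD tE ha.det hb.det hd.det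
    he.det r1 r2 r3 r4
  have ha' : Is (cj P a) true (Q0 F) := by
    have := ha.cj_outer P
    rwa [pA] at this
  have hb' : Is (cj P b) true (Jm F) := by
    have := hb.cj_outer P
    rwa [pB] at this
  have hd' : Is (cj P d) true (dg s 1 s⁻¹) := by
    have := hd.cj_outer P
    rwa [pD] at this
  have he' : Is (cj P e) true (dg 1 1 1) := by
    have := he.cj_outer P
    rwa [pE] at this
  have hs0 : s ≠ 0 := by
    rintro rfl
    simp at hs
  have QQ : Q0 F * Q0 F = 1 := by
    ext i j
    fin_cases i <;> fin_cases j <;> simp [Q0, Matrix.mul_apply, Fin.sum_univ_three]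
  have QT : (Q0 F).transpose = Q0 F := by
    ext i j
    fin_cases i <;> fin_cases j <;> simp [Q0]
  have QA : adjugate (Q0 F) = Q0 F := adj_unique ha'.det QQ
  have hcac : cj P a * cj P c = cj P c * cj P a := by rw [← cj_mul, hS.ac, cj_mul]
  have hcce : cj P c * cj P e = cj P e * cj P c := by rw [← cj_mul, hS.ce, cj_mul]
  have hccc : cj P c * cj P c = 1 := by rw [← cj_mul, hS.ic.2, cj_one]
  have hcd : c * d ≠ d * c := by
    have := hS.cd 1 zs_one
    rwa [one_mul] at this
  have hcd' : cj P c * cj P d ≠ cj P d * cj P c := by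
    rw [← cj_mul, ← cj_mul]
    intro h
    exact hcd (cj_injective P h)
  have hc1 : cj P c ≠ 1 := by
    intro h
    apply hS.ic.1
    apply cj_injective P
    rw [h, cj_one]
  rcases hcs : (cj P c).s with _ | _
  · -- `c` inner
    obtain ⟨C, hC⟩ : ∃ C, Is (cj P c) false C := ⟨_, hcs, rfl⟩
    have c1 := (comm_inner_outer_iff hC ha').1 hcac.symm
    have c2 := (comm_inner_outer_iff hC he').1 hcce
    have c3 := (inner_sq_iff hC).1 hccc
    rw [dg_one, mul_one] at c2
    have c4 : C.transpose = C := by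
      calc C.transpose = C.transpose * (C * C) := by rw [c3, mul_one]
        _ = C := by rw [← mul_assoc, c2, one_mul]
    rw [c4] at c1
    have c5 : C * Q0 F = Q0 F * C := by
      calc C * Q0 F = C * Q0 F * (C * C) := by rw [c3, mul_one]
        _ = (C * Q0 F * C) * C := by simp only [mul_assoc]
        _ = Q0 F * C := by rw [c1]
    have c6 : C ≠ 1 := by
      intro h
      rw [h] at hC
      exact hc1 (hC.ext is_one)
    rcases symQ h2 C c4 c3 hC.det c6 c5 with h | h | ⟨x, hx, h⟩
    · exfalso
      rw [h] at hC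
      have e1 : Is (cj P a * cj P e) false ((adjugate (Q0 F)).transpose * dg 1 1 1) := by
        simpa using ha'.mul_outer he'
      rw [QA, QT, dg_one, mul_one] at e1
      have e2 := hC.ext e1
      rw [← cj_mul] at e2
      have e3 := cj_injective P e2
      apply hS.v1
      have e4 : e = a * c := by rw [e3, ← mul_assoc, hS.ia.2, one_mul]
      rw [e4]
      exact mul_mem (Subgroup.subset_closure (by simp)) (Subgroup.subset_closure (by simp))
    · exfalso
      rw [h] at hC
      apply hcd'
      rw [comm_inner_outer_iff hC hd', dg_transpose, dg_mul, dg_mul]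
      congr 1 <;> ring
    · rw [h] at hC
      exact ⟨P, s, x, hs, hx, ha', hb', hd', he', Or.inl hC⟩
  · -- `c` outer
    obtain ⟨C, hC⟩ : ∃ C, Is (cj P c) true C := ⟨_, hcs, rfl⟩
    have c0 := (outer_sq_iff hC).1 hccc
    have c1 := (comm_outer_iff hC ha' c0 QT).1 hcac.symm
    have c2 := (comm_outer_iff hC he' c0 (dg_transpose _ _ _)).1 hcce
    rw [dg_one, mul_one, one_mul] at c2
    rw [c2] at c1
    have c3 : C * C = 1 := by
      have := mul_adj_self hC.det
      rwa [c2] at this
    have c4 : C * Q0 F = Q0 F * C := by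
      calc C * Q0 F = (Q0 F * C * Q0 F) * Q0 F := by rw [c1]
        _ = Q0 F * C * (Q0 F * Q0 F) := by simp only [mul_assoc]
        _ = _ := by rw [QQ, mul_one]
    have hC2 : ∀ h : M3 F, Q0 F * C = h → C = Q0 F * h := by
      intro h hh
      rw [← hh, ← mul_assoc, QQ, one_mul]
    have d1 : (Q0 F * C).transpose = Q0 F * C := by
      rw [Matrix.transpose_mul, c0, QT, c4]
    have d2 : (Q0 F * C) * (Q0 F * C) = 1 := by
      calc (Q0 F * C) * (Q0 F * C) = (Q0 F * C * Q0 F) * C := by simp only [mul_assoc]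
        _ = 1 := by rw [c1, c3]
    have d3 : (Q0 F * C).det = 1 := by
      rw [Matrix.det_mul, ha'.det, hC.det, one_mul]
    have d4 : Q0 F * C ≠ 1 := by
      intro h
      have := hC2 _ h
      rw [mul_one] at this
      rw [this] at hC
      have e1 := cj_injective P (hC.ext ha')
      apply hcd
      rw [e1, hS.ad]
    have d5 : (Q0 F * C) * Q0 F = Q0 F * (Q0 F * C) := by
      rw [mul_assoc, c4]
    rcases symQ h2 _ d1 d2 d3 d4 d5 with h | h | ⟨x, hx, h⟩
    · exfalso
      have e0 := hC2 _ h
      rw [QQ] at e0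
      rw [e0, ← dg_one] at hC
      have e1 := cj_injective P (hC.ext he')
      have := hS.bc 1 zs_one
      rw [one_mul, e1] at this
      exact this hS.be
    · exfalso
      apply hcd'
      rw [comm_outer_iff hC hd' c0 (dg_transpose _ _ _), c2, hC2 _ h]
      ext i j
      fin_cases i <;> fin_cases j <;>
        simp [Matrix.mul_apply, Fin.sum_univ_three, dg, Q0, hs0]
    · refine ⟨P, s, x, hs, hx, ha', hb', hd', he', Or.inr ?_⟩
      rw [← h, d1, d5, ← mul_assoc, QQ, one_mul]
      exact hC

end Pool.Agent.H97.SCG2
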