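import Pool.Agent.H24.SCG2.Base2

/-!
Project SCG2: matrix lemmas for the module NFD.
-/

namespace Pool.Agent.H97.SCG2

open Matrix Pool.SCG

variable {F : Type*} [Field F]

/-- Cayley Hamilton in the case of trace zero for `M` and its inverse -/
theorem ch3 (M : M3 F) (ht : M.trace = 0) (ht' : (adjugate M).trace = 0) (hd : M.det = 1) :
    M * M * M = 1 := by
  have key : M * M * M = M.trace • (M * M) - (adjugate M).trace • M + M.det • (1 : M3 F) := by
    ext i j
    fin_cases i <;> fin_cases j <;>
      simp [Matrix.mul_apply, Fin.sum_univ_three, Matrix.trace_fin_three, Matrix.det_fin_three,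
        Matrix.adjugate_fin_three] <;> ring
  rw [key, ht, ht', hd]
  simp

/-- an eigenvector for the eigenvalue `l` -/
theorem eig (M : M3 F) (h3 : (3 : F) ≠ 0) (hM : M * M * M = 1) (ht : M.trace = 0)
    (ht' : (M * M).trace = 0) (l : F) (hl : l ^ 3 = 1) :
    ∃ u : Fin 3 → F, u ≠ 0 ∧ M *ᵥ u = l • u := by
  set E : M3 F := 1 + l ^ 2 • M + l • (M * M) with hE
  have htr : E.trace = 3 := by
    rw [hE, Matrix.trace_add, Matrix.trace_add, Matrix.trace_smul, Matrix.trace_smul, ht, ht',
      Matrix.trace_one]
    simp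
  have hE0 : E ≠ 0 := by
    intro h
    rw [h, Matrix.trace_zero] at htr
    exact h3 htr.symm
  have hex : ∃ w : Fin 3 → F, E *ᵥ w ≠ 0 := by
    by_contra hcon
    push Not at hcon
    apply hE0
    ext i j
    have := congrFun (hcon (Pi.single j 1)) i
    rw [Matrix.mulVec_single_one] at this
    simpa using this
  obtain ⟨w, hw⟩ := hex
  refine ⟨E *ᵥ w, hw, ?_⟩
  rw [Matrix.mulVec_mulVec, ← Matrix.smul_mulVec]
  congr 1
  have h1 : M * E = M + l ^ 2 • (M * M) + l • (M * M * M) := by
    rw [hE, Matrix.mul_add, Matrix.mul_add, Matrix.mul_smul, Matrix.mul_smul, mul_one,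
      Matrix.mul_assoc]
  rw [h1, hM, hE, smul_add, smul_add, smul_smul, smul_smul]
  have e1 : l * l ^ 2 = 1 := by rw [← hl]; ring
  have e2 : l * l = l ^ 2 := by ring
  rw [e1, e2, one_smul]
  abel

/-- the eigenbasis -/
theorem eigb (M : M3 F) (h3 : (3 : F) ≠ 0) (hM : M * M * M = 1) (ht : M.trace = 0)
    (ht' : (M * M).trace = 0) (s : F) (hs : s ^ 2 + s + 1 = 0) :
    ∃ P : M3 F, P.det ≠ 0 ∧ M * P = P * dg s 1 (s ^ 2) := by
  have hs3 : s ^ 3 = 1 := by linear_combination (s - 1) * hs
  have hs6 : (s ^ 2) ^ 3 = 1 := by linear_combination (s ^ 3 + 1) * hs3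
  obtain ⟨u, hu, hMu⟩ := eig M h3 hM ht ht' s hs3
  obtain ⟨v, hv, hMv⟩ := eig M h3 hM ht ht' 1 (by norm_num)
  obtain ⟨w, hw, hMw⟩ := eig M h3 hM ht ht' (s ^ 2) hs6
  rw [one_smul] at hMv
  refine ⟨Matrix.of fun i j => (![u, v, w] j) i, ?_, ?_⟩
  · intro hdet
    obtain ⟨x, hx, hPx⟩ := Matrix.exists_mulVec_eq_zero_iff.2 hdet
    have hlin : x 0 • u + x 1 • v + x 2 • w = 0 := by
      ext i
      have := congrFun hPx i
      simp only [Matrix.mulVec, dotProduct, Fin.sum_univ_three, Matrix.of_apply, Pi.zero_apply] at this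
      simp only [Pi.add_apply, Pi.smul_apply, smul_eq_mul, Pi.zero_apply]
      simp at this
      rw [← this]; ring
    have hlin1 : (x 0 * s) • u + x 1 • v + (x 2 * s ^ 2) • w = 0 := by
      have := congrArg (fun z => M *ᵥ z) hlin
      simp only [Matrix.mulVec_add, Matrix.mulVec_smul, Matrix.mulVec_zero, hMu, hMv, hMw,
        smul_smul] at this
      exact this
    have hlin2 : (x 0 * s * s) • u + x 1 • v + (x 2 * s ^ 2 * s ^ 2) • w = 0 := by
      have := congrArg (fun z => M *ᵥ z) hlin1
      simp only [Matrix.mulVec_add, Matrix.mulVec_smul, Matrix.mulVec_zero, hMu, hMv, hMw,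
        smul_smul] at this
      exact this
    have hex : ∀ z : Fin 3 → F, z ≠ 0 → ∃ i, z i ≠ 0 := by
      intro z hz
      by_contra hcon
      push Not at hcon
      exact hz (funext hcon)
    have hc : ∀ i, x 0 * u i = 0 ∧ x 1 * v i = 0 ∧ x 2 * w i = 0 := by
      intro i
      have a0 := congrFun hlin i
      have a1 := congrFun hlin1 i
      have a2 := congrFun hlin2 i
      simp only [Pi.add_apply, Pi.smul_apply, smul_eq_mul, Pi.zero_apply] at a0 a1 a2
      refine ⟨?_, ?_, ?_⟩
      · apply (mul_eq_zero.1 (show 3 * (x 0 * u i) = 0 from ?_)).resolve_left h3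
        linear_combination a0 + s ^ 2 * a1 + s * a2 + (-(2 * x 0 * u i) * (s - 1) -
          x 1 * v i - x 2 * w i * (s ^ 3 - s + 1)) * hs
      · apply (mul_eq_zero.1 (show 3 * (x 1 * v i) = 0 from ?_)).resolve_left h3
        linear_combination a0 + a1 + a2 - (x 0 * u i + x 2 * w i * (s ^ 2 - s + 1)) * hs
      · apply (mul_eq_zero.1 (show 3 * (x 2 * w i) = 0 from ?_)).resolve_left h3
        linear_combination a0 + s * a1 + s ^ 2 * a2 - (x 0 * u i * (s ^ 2 - s + 1) + x 1 * v i +
          x 2 * w i * (s - 1) * (s ^ 3 + 2)) * hs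
    apply hx
    obtain ⟨i, hi⟩ := hex u hu
    obtain ⟨j, hj⟩ := hex v hv
    obtain ⟨k, hk⟩ := hex w hw
    ext l
    fin_cases l
    · exact (mul_eq_zero.1 (hc i).1).resolve_right hi
    · exact (mul_eq_zero.1 (hc j).2.1).resolve_right hj
    · exact (mul_eq_zero.1 (hc k).2.2).resolve_right hk
  · ext i j
    have e1 := congrFun hMu i
    have e2 := congrFun hMv i
    have e3 := congrFun hMw i
    simp only [Matrix.mulVec, dotProduct, Fin.sum_univ_three, Pi.smul_apply, smul_eq_mul] at e1 e2 e3
    fin_cases j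
    · simp [Matrix.mul_apply, Fin.sum_univ_three, dg, e1]; ring
    · simp [Matrix.mul_apply, Fin.sum_univ_three, dg, e2]
    · simp [Matrix.mul_apply, Fin.sum_univ_three, dg, e3]; ring

/-- symmetric involutions commuting with `Q0` -/
theorem symQ (h2 : (2 : F) ≠ 0) (h : M3 F) (hs : h.transpose = h) (hh : h * h = 1)
    (hd : h.det = 1) (h1 : h ≠ 1) (hq : h * Q0 F = Q0 F * h) :
    h = Q0 F ∨ h = dg (-1) 1 (-1) ∨ ∃ x : F, 2 + x ^ 2 ≠ 0 ∧ h = hQ 1 x := by
  obtain ⟨a, b, c, b', d, e, c', e', f, rfl⟩ : ∃ a b c b' d e c' e' f : F,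
      h = !![a, b, c; b', d, e; c', e', f] :=
    ⟨h 0 0, h 0 1, h 0 2, h 1 0, h 1 1, h 1 2, h 2 0, h 2 1, h 2 2, by
      ext i j; fin_cases i <;> fin_cases j <;> rfl⟩
  have s01 := congrFun (congrFun hs 0) 1
  have s02 := congrFun (congrFun hs 0) 2
  have s12 := congrFun (congrFun hs 1) 2
  simp at s01 s02 s12
  subst s01 s02 s12
  have q01 := congrFun (congrFun hq 0) 1
  have q00 := congrFun (congrFun hq 0) 2
  simp [Q0, Matrix.mul_apply, Fin.sum_univ_three] at q01 q00
  subst q00
  obtain rfl : e' = -b' := q01.symm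
  have m00 := congrFun (congrFun hh 0) 0
  have m01 := congrFun (congrFun hh 0) 1
  have m02 := congrFun (congrFun hh 0) 2
  have m11 := congrFun (congrFun hh 1) 1
  simp [Matrix.mul_apply, Fin.sum_univ_three] at m00 m01 m02 m11
  simp [Matrix.det_fin_three] at hd
  have hsq : (a + c' - 1) * (a + c' + 1) = 0 := by linear_combination m00 + m02
  rcases mul_eq_zero.1 hsq with hc | hc
  · -- Q0
    have hc1 : c' = 1 - a := by linear_combination hc
    subst hc1
    have k1 : d * (2 * a - 1 + d) = 2 := by
      linear_combination hd + m11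
    have k0 : (2 * a - 1 + d) ≠ 0 := by
      intro h0
      rw [h0, mul_zero] at k1
      exact h2 k1.symm
    have hb : b' = 0 := by
      have : b' * (2 * a - 1 + d) = 0 := by linear_combination m01
      exact (mul_eq_zero.1 this).resolve_right k0
    subst hb
    have hd1 : d * d = 1 := by linear_combination m11
    have hd2 : 2 * a - 1 = d := by
      have : d * (2 * a - 1 - d) = 0 := by linear_combination k1 - 2 * hd1
      rcases mul_eq_zero.1 this with h0 | h0
      · rw [h0] at hd1; simp at hd1
      · linear_combination h0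
    have hac : a * (1 - a) = 0 := by
      apply (mul_eq_zero.1 (show 2 * (a * (1 - a)) = 0 from ?_)).resolve_left h2
      linear_combination m02
    rcases mul_eq_zero.1 hac with h0 | h0
    · subst h0
      left
      have : d = -1 := by rw [← hd2]; ring
      subst this
      simp [Q0]
    · exfalso
      have ha : a = 1 := by linear_combination -h0
      subst ha
      have : d = 1 := by rw [← hd2]; ring
      subst this
      apply h1
      ext i j
      fin_cases i <;> fin_cases j <;> simp
  · right
    have hc1 : c' = -1 - a := by linear_combination hc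
    subst hc1
    have k1 : d * (2 * a + 1 + d) = 0 := by
      linear_combination -hd + m11
    have k2 : b' * (2 * a + 1 + d) = 0 := by linear_combination m01
    have k0 : 2 * a + 1 + d = 0 := by
      by_contra h0
      have e1 := (mul_eq_zero.1 k1).resolve_right h0
      have e2 := (mul_eq_zero.1 k2).resolve_right h0
      subst e1 e2
      simp at m11
    have hd' : d = -1 - 2 * a := by linear_combination k0
    subst hd'
    have hb2 : b' * b' = -2 * a * (1 + a) := by
      have : 2 * (b' * b' - (-2 * a * (1 + a))) = 0 := by linear_combination m11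
      have := (mul_eq_zero.1 this).resolve_left h2
      linear_combination this
    by_cases ha : 1 + a = 0
    · left
      have ha' : a = -1 := by linear_combination ha
      subst ha'
      have hb : b' = 0 := by
        have : b' * b' = 0 := by rw [hb2]; ring
        exact mul_self_eq_zero.1 this
      subst hb
      ext i j
      fin_cases i <;> fin_cases j <;> simp [dg]
      all_goals ring
    · right
      have hx : 2 + (b' / (1 + a)) ^ 2 = 2 / (1 + a) := by
        rw [div_pow, pow_two b', hb2]
        field_simp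
        ring
      refine ⟨b' / (1 + a), ?_, ?_⟩
      · rw [hx]
        exact div_ne_zero h2 ha
      · have hi : (2 * (1 : F) + (b' / (1 + a)) ^ 2)⁻¹ = (1 + a) / 2 := by
          rw [mul_one, hx, inv_div]
        have hx2 : (b' / (1 + a)) ^ 2 = -2 * a / (1 + a) := by
          rw [div_pow, pow_two b', hb2]
          field_simp
        rw [hQ, hi, hx2]
        ext i j
        fin_cases i <;> fin_cases j <;> simp <;> field_simp <;> ring

end Pool.Agent.H97.SCG2
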