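import Pool.Agent.H97.SCG2.NFDa

/-!
Project SCG2: the base change for the module NFD.
-/

namespace Pool.Agent.H97.SCG2

open Matrix Pool.SCG

variable {F : Type*} [Field F]

theorem zero_of (a u v : F) (h : a * u = v * a) (huv : u ≠ v) : a = 0 := by
  have : a * (u - v) = 0 := by linear_combination h
  exact (mul_eq_zero.1 this).resolve_right (sub_ne_zero.2 huv)

theorem ent (M : M3 F) (u1 u2 u3 v1 v2 v3 : F) (h : M * dg u1 u2 u3 = dg v1 v2 v3 * M)
    (i j : Fin 3) : M i j * (![u1, u2, u3] j) = (![v1, v2, v3] i) * M i j := by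
  have := congrFun (congrFun h i) j
  fin_cases i <;> fin_cases j <;> simpa [Matrix.mul_apply, Fin.sum_univ_three, dg] using this

theorem bch (h3 : (3 : F) ≠ 0) (A B D E : M3 F) (z : F) (hz : z ^ 3 = 1) (hz1 : z ≠ 1)
    (hA : A.transpose = A) (hB : B.transpose = B) (hD : D.transpose = D) (hE : E.transpose = E)
    (dA : A.det = 1) (dB : B.det = 1) (dD : D.det = 1) (dE : E.det = 1)
    (r1 : E * adjugate A * E = A) (r2 : D * adjugate A * D = A) (r3 : E * adjugate B * E = B)
    (r4 : D * adjugate B * D = z • B) :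
    ∃ (P : SL3 F) (s : F), s ^ 2 + s + 1 = 0 ∧
      (P : M3 F).transpose * A * (P : M3 F) = Q0 F ∧
      (P : M3 F).transpose * B * (P : M3 F) = Jm F ∧
      (P : M3 F).transpose * D * (P : M3 F) = dg s 1 s⁻¹ ∧
      (P : M3 F).transpose * E * (P : M3 F) = dg 1 1 1 := by
  have iA := adj_mul_self dA
  have iA' := mul_adj_self dA
  have iB := adj_mul_self dB
  have iB' := mul_adj_self dB
  have iD := adj_mul_self dD
  have iD' := mul_adj_self dD
  have iE := adj_mul_self dE
  have iE' := mul_adj_self dE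
  have daA : (adjugate A).det = 1 := by rw [Matrix.det_adjugate, dA]; simp
  have daB : (adjugate B).det = 1 := by rw [Matrix.det_adjugate, dB]; simp
  have daE : (adjugate E).det = 1 := by rw [Matrix.det_adjugate, dE]; simp
  set Ai := adjugate A with hAi
  set Bi := adjugate B with hBi
  set Di := adjugate D with hDi
  set Ei := adjugate E with hEi
  -- the elements
  obtain ⟨h, hh⟩ : ∃ h, h = Ai * E := ⟨_, rfl⟩
  obtain ⟨X, hX⟩ : ∃ X, X = Bi * E := ⟨_, rfl⟩
  obtain ⟨T, hT⟩ : ∃ T, T = Ei * D := ⟨_, rfl⟩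
  obtain ⟨Ti, hTi⟩ : ∃ T, T = Di * E := ⟨_, rfl⟩
  have k1 : Ai * D * Ai = Di := by
    calc Ai * D * Ai = Ai * (D * Ai * D) * Di := by
          simp only [mul_assoc]; rw [iD', mul_one]
      _ = Di := by rw [r2, iA, one_mul]
  have k2 : Bi * D * Bi = z • Di := by
    calc Bi * D * Bi = Bi * (D * Bi * D) * Di := by
          simp only [mul_assoc]; rw [iD', mul_one]
      _ = z • Di := by rw [r4, Matrix.mul_smul, iB, Matrix.smul_mul, one_mul]
  have hhh : h * h = 1 := by
    calc h * h = Ai * (E * Ai * E) := by rw [hh]; simp only [mul_assoc]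
      _ = 1 := by rw [r1, iA]
  have hXX : X * X = 1 := by
    calc X * X = Bi * (E * Bi * E) := by rw [hX]; simp only [mul_assoc]
      _ = 1 := by rw [r3, iB]
  have hTTi : T * Ti = 1 := by
    calc T * Ti = Ei * (D * Di) * E := by rw [hT, hTi]; simp only [mul_assoc]
      _ = 1 := by rw [iD', mul_one, iE]
  have hTiT : Ti * T = 1 := by
    calc Ti * T = Di * (E * Ei) * D := by rw [hT, hTi]; simp only [mul_assoc]
      _ = 1 := by rw [iE', mul_one, iD]
  have hhT : h * T * h = Ti := by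
    calc h * T * h = Ai * (E * Ei) * D * Ai * E := by rw [hh, hT]; simp only [mul_assoc]
      _ = Ti := by rw [iE', mul_one, k1, hTi]
  have hXT : X * T * X = z • Ti := by
    calc X * T * X = Bi * (E * Ei) * D * Bi * E := by rw [hX, hT]; simp only [mul_assoc]
      _ = z • Ti := by rw [iE', mul_one, k2, hTi, Matrix.smul_mul]
  have hhT' : h * T = Ti * h := by
    calc h * T = h * T * (h * h) := by rw [hhh, mul_one]
      _ = (h * T * h) * h := by simp only [mul_assoc]
      _ = Ti * h := by rw [hhT]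
  have hXT' : X * T = z • (Ti * X) := by
    calc X * T = X * T * (X * X) := by rw [hXX, mul_one]
      _ = (X * T * X) * X := by simp only [mul_assoc]
      _ = z • (Ti * X) := by rw [hXT, Matrix.smul_mul]
  -- traces
  have t1 : Ti.trace = T.trace := by
    rw [← hhT, Matrix.trace_mul_comm, ← mul_assoc, hhh, one_mul]
  have t2 : T.trace = z * Ti.trace := by
    have : (X * T * X).trace = T.trace := by
      rw [Matrix.trace_mul_comm, ← mul_assoc, hXX, one_mul]
    rw [← this, hXT, Matrix.trace_smul, smul_eq_mul]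
  have t3 : T.trace = 0 := by
    rw [t1] at t2
    have : T.trace * (1 - z) = 0 := by linear_combination t2
    exact (mul_eq_zero.1 this).resolve_right (sub_ne_zero.2 (Ne.symm hz1))
  have dT : T.det = 1 := by rw [hT, Matrix.det_mul, daE, dD, one_mul]
  have dh : h.det = 1 := by rw [hh, Matrix.det_mul, daA, dE, one_mul]
  have dX : X.det = 1 := by rw [hX, Matrix.det_mul, daB, dE, one_mul]
  have hT3 : T * T * T = 1 := ch3 T t3 (by rw [adj_unique dT hTTi, t1, t3]) dT
  have hTT : T * T = Ti := by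
    calc T * T = T * T * (T * Ti) := by rw [hTTi, mul_one]
      _ = T * T * T * Ti := by simp only [mul_assoc]
      _ = Ti := by rw [hT3, one_mul]
  -- s
  have hs : (z ^ 2) ^ 2 + z ^ 2 + 1 = 0 := by
    have h0 : (z - 1) * (z ^ 2 + z + 1) = 0 := by linear_combination hz
    have h1 := (mul_eq_zero.1 h0).resolve_left (sub_ne_zero.2 hz1)
    linear_combination h1 * (z ^ 2 - z + 1)
  obtain ⟨s, hsz⟩ : ∃ s, s = z ^ 2 := ⟨_, rfl⟩
  rw [← hsz] at hs
  have hzs : z = s ^ 2 := by rw [hsz]; linear_combination (-z) * hz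
  obtain ⟨P, hP, hTP⟩ := eigb T h3 hT3 t3 (by rw [hTT, t1, t3]) s hs
  have hs3 : s ^ 3 = 1 := by linear_combination (s - 1) * hs
  have hs1 : s ≠ 1 := by
    rintro rfl
    apply h3
    linear_combination hs
  have hs0 : s ≠ 0 := by
    rintro rfl
    simp at hs
  have hs2 : s ^ 2 ≠ 1 := by
    intro h0
    apply hs1
    linear_combination (-s) * h0 + hs3
  have hs12 : s ≠ s ^ 2 := by
    intro h0
    apply hs2
    rw [← hs3]
    linear_combination s * h0
  have hPu : IsUnit P.det := isUnit_iff_ne_zero.2 hP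
  obtain ⟨R, hR⟩ : ∃ R, R = P⁻¹ := ⟨_, rfl⟩
  have hRP : R * P = 1 := by rw [hR, Matrix.nonsing_inv_mul P hPu]
  have hPR : P * R = 1 := by rw [hR, Matrix.mul_nonsing_inv P hPu]
  have dRP : R.det * P.det = 1 := by rw [← Matrix.det_mul, hRP, Matrix.det_one]
  have hTiP : Ti * P = P * dg (s ^ 2) 1 s := by
    rw [← hTT, mul_assoc, hTP, ← mul_assoc, hTP, mul_assoc, dg_mul]
    congr 2
    · ring
    · ring
    · linear_combination s * hs3
  obtain ⟨H, hH⟩ : ∃ H, H = R * h * P := ⟨_, rfl⟩
  obtain ⟨Y, hY⟩ : ∃ Y, Y = R * X * P := ⟨_, rfl⟩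
  obtain ⟨G, hG⟩ : ∃ G, G = P.transpose * E * P := ⟨_, rfl⟩
  have cH : H * dg s 1 (s ^ 2) = dg (s ^ 2) 1 s * H := by
    calc H * dg s 1 (s ^ 2) = R * h * (P * dg s 1 (s ^ 2)) := by rw [hH]; simp only [mul_assoc]
      _ = R * (h * T) * P := by rw [← hTP]; simp only [mul_assoc]
      _ = R * (Ti * h) * P := by rw [hhT']
      _ = R * Ti * (P * R) * h * P := by rw [hPR, mul_one]; simp only [mul_assoc]
      _ = R * (Ti * P) * (R * h * P) := by simp only [mul_assoc]
      _ = (R * P) * dg (s ^ 2) 1 s * H := by rw [hTiP, hH]; simp only [mul_assoc]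
      _ = _ := by rw [hRP, one_mul]
  have cY : Y * dg s 1 (s ^ 2) = dg s (s ^ 2) 1 * Y := by
    have e1 : dg s (s ^ 2) 1 = z • dg (s ^ 2) 1 s := by
      rw [hzs]
      ext i j
      fin_cases i <;> fin_cases j <;> simp [dg]
      · linear_combination (-s) * hs3
      · linear_combination -hs3
    calc Y * dg s 1 (s ^ 2) = R * X * (P * dg s 1 (s ^ 2)) := by rw [hY]; simp only [mul_assoc]
      _ = R * (X * T) * P := by rw [← hTP]; simp only [mul_assoc]
      _ = z • (R * (Ti * X) * P) := by rw [hXT', Matrix.mul_smul, Matrix.smul_mul]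
      _ = z • (R * Ti * (P * R) * X * P) := by rw [hPR, mul_one]; simp only [mul_assoc]
      _ = z • (R * (Ti * P) * (R * X * P)) := by simp only [mul_assoc]
      _ = z • ((R * P) * dg (s ^ 2) 1 s * Y) := by rw [hTiP, hY]; simp only [mul_assoc]
      _ = _ := by rw [hRP, one_mul, e1, Matrix.smul_mul]
  have hET : E * T = D := by rw [hT, ← mul_assoc, iE', one_mul]
  have hTE : T.transpose * E = D := by
    have := congrArg Matrix.transpose hET
    rwa [Matrix.transpose_mul, hE, hD] at this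
  have cG : G * dg s 1 (s ^ 2) = dg s 1 (s ^ 2) * G := by
    calc G * dg s 1 (s ^ 2) = P.transpose * E * (P * dg s 1 (s ^ 2)) := by
          rw [hG]; simp only [mul_assoc]
      _ = P.transpose * (E * T) * P := by rw [← hTP]; simp only [mul_assoc]
      _ = P.transpose * (T.transpose * E) * P := by rw [hET, hTE]
      _ = (T * P).transpose * E * P := by rw [Matrix.transpose_mul]; simp only [mul_assoc]
      _ = dg s 1 (s ^ 2) * G := by
          rw [hTP, Matrix.transpose_mul, dg_transpose, hG]; simp only [mul_assoc]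
  have HH : H * H = 1 := by
    calc H * H = R * h * (P * R) * h * P := by rw [hH]; simp only [mul_assoc]
      _ = R * (h * h) * P := by rw [hPR, mul_one]; simp only [mul_assoc]
      _ = 1 := by rw [hhh, mul_one, hRP]
  have YY : Y * Y = 1 := by
    calc Y * Y = R * X * (P * R) * X * P := by rw [hY]; simp only [mul_assoc]
      _ = R * (X * X) * P := by rw [hPR, mul_one]; simp only [mul_assoc]
      _ = 1 := by rw [hXX, mul_one, hRP]
  have dH : H.det = 1 := by
    rw [hH, Matrix.det_mul, Matrix.det_mul, dh, mul_one, dRP]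
  have dY : Y.det = 1 := by
    rw [hY, Matrix.det_mul, Matrix.det_mul, dX, mul_one, dRP]
  have dG : G.det = P.det ^ 2 := by
    rw [hG, Matrix.det_mul, Matrix.det_mul, Matrix.det_transpose, dE]; ring
  -- the forms in the new basis
  have gA : P.transpose * A * P = G * H := by
    calc P.transpose * A * P = P.transpose * (E * h) * P := by
          rw [hh, ← mul_assoc E, r1]
      _ = P.transpose * E * (P * R) * h * P := by rw [hPR, mul_one]; simp only [mul_assoc]
      _ = G * H := by rw [hG, hH]; simp only [mul_assoc]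
  have gB : P.transpose * B * P = G * Y := by
    calc P.transpose * B * P = P.transpose * (E * X) * P := by
          rw [hX, ← mul_assoc E, r3]
      _ = P.transpose * E * (P * R) * X * P := by rw [hPR, mul_one]; simp only [mul_assoc]
      _ = G * Y := by rw [hG, hY]; simp only [mul_assoc]
  have gD : P.transpose * D * P = G * dg s 1 (s ^ 2) := by
    calc P.transpose * D * P = P.transpose * E * (T * P) := by
          rw [← hET]; simp only [mul_assoc]
      _ = _ := by rw [hTP, hG]; simp only [mul_assoc]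
  -- shapes
  have sG : G = dg (G 0 0) (G 1 1) (G 2 2) := by
    have n01 := zero_of _ _ _ (ent G _ _ _ _ _ _ cG 0 1) (by simpa using hs1.symm)
    have n02 := zero_of _ _ _ (ent G _ _ _ _ _ _ cG 0 2) (by simpa using hs12.symm)
    have n10 := zero_of _ _ _ (ent G _ _ _ _ _ _ cG 1 0) (by simpa using hs1)
    have n12 := zero_of _ _ _ (ent G _ _ _ _ _ _ cG 1 2) (by simpa using hs2)
    have n20 := zero_of _ _ _ (ent G _ _ _ _ _ _ cG 2 0) (by simpa using hs12)
    have n21 := zero_of _ _ _ (ent G _ _ _ _ _ _ cG 2 1) (by simpa using hs2.symm)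
    ext i j
    fin_cases i <;> fin_cases j <;> simp [dg, n01, n02, n10, n12, n20, n21]
  have sH : H = !![0, 0, H 0 2; 0, H 1 1, 0; H 2 0, 0, 0] := by
    have n00 := zero_of _ _ _ (ent H _ _ _ _ _ _ cH 0 0) (by simpa using hs12)
    have n01 := zero_of _ _ _ (ent H _ _ _ _ _ _ cH 0 1) (by simpa using hs2.symm)
    have n10 := zero_of _ _ _ (ent H _ _ _ _ _ _ cH 1 0) (by simpa using hs1)
    have n12 := zero_of _ _ _ (ent H _ _ _ _ _ _ cH 1 2) (by simpa using hs2)
    have n21 := zero_of _ _ _ (ent H _ _ _ _ _ _ cH 2 1) (by simpa using hs1.symm)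
    have n22 := zero_of _ _ _ (ent H _ _ _ _ _ _ cH 2 2) (by simpa using hs12.symm)
    ext i j
    fin_cases i <;> fin_cases j <;> simp [n00, n01, n10, n12, n21, n22]
  have sY : Y = !![Y 0 0, 0, 0; 0, 0, Y 1 2; 0, Y 2 1, 0] := by
    have n01 := zero_of _ _ _ (ent Y _ _ _ _ _ _ cY 0 1) (by simpa using hs1.symm)
    have n02 := zero_of _ _ _ (ent Y _ _ _ _ _ _ cY 0 2) (by simpa using hs12.symm)
    have n10 := zero_of _ _ _ (ent Y _ _ _ _ _ _ cY 1 0) (by simpa using hs12)
    have n11 := zero_of _ _ _ (ent Y _ _ _ _ _ _ cY 1 1) (by simpa using hs2.symm)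
    have n20 := zero_of _ _ _ (ent Y _ _ _ _ _ _ cY 2 0) (by simpa using hs1)
    have n22 := zero_of _ _ _ (ent Y _ _ _ _ _ _ cY 2 2) (by simpa using hs2)
    ext i j
    fin_cases i <;> fin_cases j <;> simp [n01, n02, n10, n11, n20, n22]
  obtain ⟨e1, e1h⟩ : ∃ e, e = G 0 0 := ⟨_, rfl⟩
  obtain ⟨e2, e2h⟩ : ∃ e, e = G 1 1 := ⟨_, rfl⟩
  obtain ⟨e3, e3h⟩ : ∃ e, e = G 2 2 := ⟨_, rfl⟩
  obtain ⟨u, uh⟩ : ∃ e, e = H 0 2 := ⟨_, rfl⟩
  obtain ⟨q, qh⟩ : ∃ e, e = H 1 1 := ⟨_, rfl⟩
  obtain ⟨r, rh⟩ : ∃ e, e = H 2 0 := ⟨_, rfl⟩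
  obtain ⟨w, wh⟩ : ∃ e, e = Y 0 0 := ⟨_, rfl⟩
  obtain ⟨x, xh⟩ : ∃ e, e = Y 1 2 := ⟨_, rfl⟩
  obtain ⟨y, yh⟩ : ∃ e, e = Y 2 1 := ⟨_, rfl⟩
  rw [← e1h, ← e2h, ← e3h] at sG
  rw [← uh, ← qh, ← rh] at sH
  rw [← wh, ← xh, ← yh] at sY
  clear e1h e2h e3h uh qh rh wh xh yh
  have f1 : u * r = 1 := by
    have := congrFun (congrFun HH 0) 0
    rw [sH] at this
    simpa [Matrix.mul_apply, Fin.sum_univ_three] using this
  have f2 : q = -1 := by
    have := dH
    rw [sH] at this
    simp [Matrix.det_fin_three] at this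
    linear_combination (-1) * this - q * f1
  have f3 : x * y = 1 := by
    have := congrFun (congrFun YY 1) 1
    rw [sY] at this
    simpa [Matrix.mul_apply, Fin.sum_univ_three] using this
  have f4 : w = -1 := by
    have := dY
    rw [sY] at this
    simp [Matrix.det_fin_three] at this
    linear_combination (-1) * this - w * f3
  have f5 : e1 * u = e3 * r := by
    have h0 : (P.transpose * A * P).transpose = P.transpose * A * P := by
      rw [Matrix.transpose_mul, Matrix.transpose_mul, Matrix.transpose_transpose, hA, mul_assoc]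
    rw [gA, sG, sH] at h0
    have := congrFun (congrFun h0 2) 0
    simpa [Matrix.mul_apply, Fin.sum_univ_three, dg] using this
  have f6 : e2 * x = e3 * y := by
    have h0 : (P.transpose * B * P).transpose = P.transpose * B * P := by
      rw [Matrix.transpose_mul, Matrix.transpose_mul, Matrix.transpose_transpose, hB, mul_assoc]
    rw [gB, sG, sY] at h0
    have := congrFun (congrFun h0 2) 1
    simpa [Matrix.mul_apply, Fin.sum_univ_three, dg] using this
  have f7 : e1 * e2 * e3 = P.det ^ 2 := by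
    rw [← dG, sG, dg_det]
  obtain ⟨δ, hδ⟩ : ∃ δ, δ = P.det := ⟨_, rfl⟩
  rw [← hδ] at f7 hP
  have g3 : e3 = e2 * x ^ 2 := by linear_combination (-x) * f6 + (-e3) * f3
  have g1 : e1 = e2 * x ^ 2 * r ^ 2 := by
    rw [← g3]
    linear_combination r * f5 + (-e1) * f1
  have r0 : r ≠ 0 := by rintro rfl; simp at f1
  have x0 : x ≠ 0 := by rintro rfl; simp at f3
  have g0 : e2 ^ 3 * x ^ 4 * r ^ 2 = δ ^ 2 := by
    rw [← f7, g1, g3]; ring
  have e0 : e2 ≠ 0 := by
    rintro rfl
    apply hP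
    have : δ ^ 2 = 0 := by rw [← g0]; ring
    exact pow_eq_zero_iff (by norm_num) |>.1 this
  have u0 : u = r⁻¹ := eq_inv_of_mul_eq_one_left f1
  have y0 : y = x⁻¹ := eq_inv_of_mul_eq_one_right f3
  obtain ⟨p1, hp1⟩ : ∃ p, p = e2 * x / δ := ⟨_, rfl⟩
  obtain ⟨p2, hp2⟩ : ∃ p, p = e2 * x ^ 2 * r / δ := ⟨_, rfl⟩
  obtain ⟨p3, hp3⟩ : ∃ p, p = e2 * x * r / δ := ⟨_, rfl⟩
  have hdet : (P * dg p1 p2 p3).det = 1 := by
    rw [Matrix.det_mul, dg_det, ← hδ, hp1, hp2, hp3]
    field_simp
    linear_combination g0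
  have key : ∀ M : M3 F, (P * dg p1 p2 p3).transpose * M * (P * dg p1 p2 p3) =
      dg p1 p2 p3 * (P.transpose * M * P) * dg p1 p2 p3 := by
    intro M
    rw [Matrix.transpose_mul, dg_transpose]
    simp only [mul_assoc]
  have w1 : p1 * e1 * p1 = 1 := by
    rw [hp1, g1]; field_simp; linear_combination g0
  have w2 : p2 * e2 * p2 = 1 := by
    rw [hp2]; field_simp; linear_combination g0
  have w3 : p3 * e3 * p3 = 1 := by
    rw [hp3, g3]; field_simp; linear_combination g0
  have w4 : p1 * (e1 * u) * p3 = 1 := by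
    rw [hp3, g1, u0, hp1]; field_simp; linear_combination g0
  have w5 : p3 * (e3 * r) * p1 = 1 := by
    rw [← f5]; linear_combination w4
  have w6 : p2 * (e2 * x) * p3 = 1 := by
    rw [hp2, hp3]; field_simp; linear_combination g0
  have w7 : p3 * (e3 * y) * p2 = 1 := by
    rw [← f6]; linear_combination w6
  have hsi : s⁻¹ = s ^ 2 :=
    (eq_inv_of_mul_eq_one_left (show s ^ 2 * s = 1 by linear_combination hs3)).symm
  refine ⟨⟨P * dg p1 p2 p3, hdet⟩, s, hs, ?_, ?_, ?_, ?_⟩
  · show (P * dg p1 p2 p3).transpose * A * (P * dg p1 p2 p3) = Q0 F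
    rw [key, gA, sG, sH]
    ext i j
    fin_cases i <;> fin_cases j <;> simp [Matrix.mul_apply, Fin.sum_univ_three, dg, Q0]
    · exact w4
    · rw [f2]; linear_combination -w2
    · exact w5
  · show (P * dg p1 p2 p3).transpose * B * (P * dg p1 p2 p3) = Jm F
    rw [key, gB, sG, sY]
    ext i j
    fin_cases i <;> fin_cases j <;> simp [Matrix.mul_apply, Fin.sum_univ_three, dg, Jm]
    · rw [f4]; linear_combination -w1
    · exact w6
    · exact w7
  · show (P * dg p1 p2 p3).transpose * D * (P * dg p1 p2 p3) = dg s 1 s⁻¹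
    rw [key, gD, sG, hsi, dg_mul, dg_mul, dg_mul]
    congr 1
    · linear_combination s * w1
    · linear_combination w2
    · linear_combination s ^ 2 * w3
  · show (P * dg p1 p2 p3).transpose * E * (P * dg p1 p2 p3) = dg 1 1 1
    rw [key, ← hG, sG, dg_mul, dg_mul, w1, w2, w3]

end Pool.Agent.H97.SCG2
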